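import Pool.Agent.Run7.h255.AD.ITER

/-! Piece GD of project AD (helper131). -/

set_option autoImplicit false

namespace Run7.h255.AD

open Run7.h131.AD Filter

theorem t_GD (hZ : S_ZZZ) (hR : S_RNG) (hD : S_DCL) (hPT : S_PTT) (hTH : S_TH) (hTB : S_TB) (hL : S_LIN) : S_GD := by
  intro s w N M hA f hf
  obtain ⟨P, Q, hQ, hPQ⟩ := hf
  obtain ⟨zR, zI, zU, zP, zS, -, -, -⟩ := hZ
  have eI : ∀ x : ℚ, ∀ᶠ p : ℕ in atTop, p.Prime → ZI p x := fun x => by
    obtain ⟨p0, h⟩ := zI x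
    exact eventually_atTop.2 ⟨p0, fun p hp => h p hp⟩
  have eU : ∀ x : ℚ, x ≠ 0 → ∀ᶠ p : ℕ in atTop, p.Prime → ZU p x := fun x hx => by
    obtain ⟨p0, h⟩ := zU x hx
    exact eventually_atTop.2 ⟨p0, fun p hp => h p hp⟩
  have eP : ∀ (σ : Type) (R : MvPolynomial σ ℚ), ∀ᶠ p : ℕ in atTop, p.Prime → PI p R := fun σ R => by
    obtain ⟨p0, h⟩ := zP σ R
    exact eventually_atTop.2 ⟨p0, fun p hp => h p hp⟩
  let Λ : Set (Fin s → ℚ) := {l | (∃ P' : MvPolynomial (Fin s) ℚ, MvPolynomial.aeval w P' = 0 ∧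
      l = fun j => MvPolynomial.eval (c0 w) (MvPolynomial.pderiv j P')) ∨
      ∃ k : ℕ, l = fun j => PowerSeries.coeff k (th w N M f P Q j)}
  obtain ⟨F, p1, hF, hlin⟩ := hL s Λ
  have hT : ∀ᶠ T : ℕ in atTop, ∀ l ∈ F, (∃ P' : MvPolynomial (Fin s) ℚ, MvPolynomial.aeval w P' = 0 ∧
      l = fun j => MvPolynomial.eval (c0 w) (MvPolynomial.pderiv j P')) ∨
      ∃ k : ℕ, k ≤ T ∧ l = fun j => PowerSeries.coeff k (th w N M f P Q j) := by
    refine (Filter.eventually_all_finset F).2 fun l hl => ?_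
    rcases hF hl with h | ⟨k, hk⟩
    · exact Eventually.of_forall fun T => Or.inl h
    · exact (eventually_ge_atTop k).mono fun T hT => Or.inr ⟨k, hT, hk⟩
  obtain ⟨T, hT⟩ := hT.exists
  have hF2 : ∀ᶠ p : ℕ in atTop, p.Prime → ∀ l ∈ F,
      (∃ P' : MvPolynomial (Fin s) ℚ, MvPolynomial.aeval w P' = 0 ∧ PI p P' ∧
      l = fun j => MvPolynomial.eval (c0 w) (MvPolynomial.pderiv j P')) ∨
      ∃ k : ℕ, k ≤ T ∧ l = fun j => PowerSeries.coeff k (th w N M f P Q j) := by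
    have : ∀ᶠ p : ℕ in atTop, ∀ l ∈ F, p.Prime →
      (∃ P' : MvPolynomial (Fin s) ℚ, MvPolynomial.aeval w P' = 0 ∧ PI p P' ∧
      l = fun j => MvPolynomial.eval (c0 w) (MvPolynomial.pderiv j P')) ∨
      ∃ k : ℕ, k ≤ T ∧ l = fun j => PowerSeries.coeff k (th w N M f P Q j) := by
      refine (Filter.eventually_all_finset F).2 fun l hl => ?_
      rcases hT l hl with ⟨P', h1, h2⟩ | h
      · exact (eP _ P').mono fun p hp hpp => Or.inl ⟨P', h1, hp hpp, h2⟩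
      · exact Eventually.of_forall fun p _ => Or.inr h
    exact this.mono fun p hp hpp l hl => hp l hl hpp
  have hgood : ∀ᶠ p : ℕ in atTop, p.Prime → Good p w N M := by
    have h1 : ∀ᶠ p : ℕ in atTop, ∀ i, p.Prime → ZI p (c0 w i) := Filter.eventually_all.2 fun i => eI _
    have h2 : ∀ᶠ p : ℕ in atTop, ∀ i, p.Prime → ZI p (ev (D (w i))) := Filter.eventually_all.2 fun i => eI _
    have h3 : ∀ᶠ p : ℕ in atTop, ∀ i, p.Prime → PI p (N i) := Filter.eventually_all.2 fun i => eP _ _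
    have h4 : ∀ᶠ p : ℕ in atTop, ∀ i, p.Prime → PI p (M i) := Filter.eventually_all.2 fun i => eP _ _
    have h5 : ∀ᶠ p : ℕ in atTop, ∀ i, p.Prime → ZU p (MvPolynomial.eval (pt0 w) (M i)) :=
      Filter.eventually_all.2 fun i => eU _ (hA.unit i)
    filter_upwards [h1, h2, h3, h4, h5] with p a1 a2 a3 a4 a5 hp
    exact ⟨hp, fun i => a1 i hp, fun i => a2 i hp, fun i => a3 i hp, fun i => a4 i hp, fun i => a5 i hp⟩
  have hall := hF2.and (hgood.and ((eP _ P).and ((eP _ Q).and ((eU _ hQ).and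
    ((eventually_ge_atTop p1).and (eventually_ge_atTop (T + 2)))))))
  obtain ⟨p0, hp0⟩ := eventually_atTop.1 hall
  refine ⟨T, p0, fun p hpp hp => ?_⟩
  obtain ⟨b1, b2, b3, b4, b5, b6, b7⟩ := hp0 p hpp
  replace b1 := b1 hp
  replace b2 := b2 hp
  replace b3 := b3 hp
  replace b4 := b4 hp
  replace b5 := b5 hp
  refine ⟨b2, ⟨P, Q, b3, b4, b5, hPQ⟩, fun H => ?_⟩
  obtain ⟨SP, hSP, hSPC, hSPw, hSPev, hSPO, hSPinv⟩ := hR.2 p s w b2.prime b2.c
  obtain ⟨-, hvO, hDO, hP'⟩ := hD s w N M hA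
  obtain ⟨hvP, hDP⟩ := hP' p b2
  have hmem : ∀ g, g ∈ OP p w ↔ g ∈ SP := fun g => by rw [← hSP]; rfl
  have hDit : ∀ k : ℕ, ∀ g ∈ OP p w, D^[k] g ∈ OP p w := by
    intro k
    induction k with
    | zero => intro g hg; exact hg
    | succ k ih => intro g hg; rw [Function.iterate_succ_apply]; exact ih _ (hDP g hg)
  obtain ⟨⟨R, hR'⟩, -, hfac, -⟩ := zR p hp
  have rm : ∀ x, ZI p x ↔ x ∈ R := fun x => by
    have : x ∈ (R : Set ℚ) ↔ x ∈ {x | ZI p x} := by rw [hR']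
    exact this.symm
  have hc : ∀ j, ZI p (cp p w j) := fun j => hSPev _ ((hmem _).1 (hDit p _ ((hmem _).2 (hSPw j))))
  have hcl : ∀ l ∈ F, ZD p p (∑ j, cp p w j * l j) := by
    intro l hl
    rcases b1 l hl with ⟨P', h1, h2, rfl⟩ | ⟨k, hk, rfl⟩
    · exact hPT s w N M hA p b2 P' h2 h1
    · obtain ⟨h, hh, he⟩ := (hTH s w N M hA f P Q hQ hPQ).2 p b2 b3 b4 b5
      have hck := congrArg (PowerSeries.coeff k) he
      rw [map_sub, map_sum, PowerSeries.coeff_C_mul] at hck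
      simp only [PowerSeries.coeff_C_mul] at hck
      have hkf : ZI p ((k.factorial : ℚ)⁻¹) := hfac k (by omega)
      have hk0 : (k.factorial : ℚ) ≠ 0 := by exact_mod_cast k.factorial_ne_zero
      have y2 : ZI p (PowerSeries.coeff k h) := by
        have e1 := ev_Dit h k
        have e2 : PowerSeries.coeff k h = (k.factorial : ℚ)⁻¹ * ev (D^[k] h) := by
          rw [e1, ← mul_assoc, inv_mul_cancel₀ hk0, one_mul]
        rw [e2, rm]
        exact R.mul_mem ((rm _).1 hkf) ((rm _).1 (hSPev _ ((hmem _).1 (hDit k _ hh))))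
      have e3 : (k.factorial : ℚ) * PowerSeries.coeff k (D^[p] f) =
          ((k + p).factorial : ℚ) * PowerSeries.coeff (k + p) f := by
        rw [← ev_Dit, ← ev_Dit, Function.iterate_add_apply]
      obtain ⟨m, hm⟩ : p ∣ (k + p).factorial := Nat.dvd_factorial hp.pos (by omega)
      have e4 : PowerSeries.coeff k (D^[p] f) =
          (p : ℚ) * ((m : ℚ) * ((k.factorial : ℚ)⁻¹ * PowerSeries.coeff (k + p) f)) := by
        have : PowerSeries.coeff k (D^[p] f) =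
            (k.factorial : ℚ)⁻¹ * (((k + p).factorial : ℚ) * PowerSeries.coeff (k + p) f) := by
          rw [← e3, ← mul_assoc, inv_mul_cancel₀ hk0, one_mul]
        rw [this, hm]; push_cast; ring
      refine ⟨(m : ℚ) * ((k.factorial : ℚ)⁻¹ * PowerSeries.coeff (k + p) f) - PowerSeries.coeff k h, ?_, ?_⟩
      · rw [rm]
        exact R.sub_mem (R.mul_mem (natCast_mem R m) (R.mul_mem ((rm _).1 hkf)
          ((rm _).1 (H (k + p) (by omega) (by omega))))) ((rm _).1 y2)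
      · rw [mul_sub, ← e4, ← hck]; ring
  obtain ⟨τ, t1, t2, t3⟩ := hlin p b6 hp (cp p w) hc hcl
  have hTT : τ ∈ TT w := fun P' hP' => t2 _ (Or.inl ⟨P', hP', rfl⟩)
  obtain ⟨d, hd, hdw⟩ := hTB s w τ hTT
  refine ⟨d, hd, fun j => by rw [hdw]; exact t1 j, fun j => by rw [hdw]; exact t3 j, ?_⟩
  rw [(hTH s w N M hA f P Q hQ hPQ).1 d hd]
  ext k
  rw [map_sum]
  simp only [PowerSeries.coeff_C_mul, hdw, map_zero]
  exact t2 _ (Or.inr ⟨k, rfl⟩)

end Run7.h255.AD
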