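import Pool.Agent.Run7.h131.AD.Iface

/-! Piece ITER of project AD (helper131). -/

set_option autoImplicit false

namespace Run7.h255.AD

open Run7.h131.AD

theorem D_C_mul (x : ℚ) (g : PS) : D (PowerSeries.C x * g) = PowerSeries.C x * D g := by
  unfold D
  rw [← PowerSeries.smul_eq_C_mul, ← PowerSeries.smul_eq_C_mul]
  exact Derivation.map_smul _ _ _

theorem Dit_C_mul (x : ℚ) (g : PS) (k : ℕ) : D^[k] (PowerSeries.C x * g) = PowerSeries.C x * D^[k] g := by
  induction k generalizing g with
  | zero => rfl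
  | succ k ih => rw [Function.iterate_succ_apply, Function.iterate_succ_apply, D_C_mul, ih]

theorem Dit_zero (k : ℕ) : D^[k] (0 : PS) = 0 := by
  induction k with
  | zero => rfl
  | succ k ih => rw [Function.iterate_succ_apply]; have : D 0 = 0 := by unfold D; exact map_zero _
                 rw [this, ih]

theorem ev_Dit (g : PS) (k : ℕ) : ev (D^[k] g) = (k.factorial : ℚ) * PowerSeries.coeff k g := by
  induction k generalizing g with
  | zero => simp [ev]
  | succ k ih =>
    rw [Function.iterate_succ_apply, ih, Nat.factorial_succ]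
    have : PowerSeries.coeff k (D g) = PowerSeries.coeff (k + 1) g * (k + 1) := PowerSeries.coeff_derivative _ _
    rw [this]; push_cast; ring

theorem t_ITER (hR : S_RNG) (hD : S_DCL) (hE : S_DELC) (hP : S_PMO) : S_ITER := by
  intro s w N M hA p hp d hd hdi hcd f hf hf0
  obtain ⟨SP, hSP, hSPC, hSPw, hSPev, hSPO, hSPinv⟩ := hR.2 p s w hp.prime hp.c
  obtain ⟨-, hvO, hDO, hP'⟩ := hD s w N M hA
  obtain ⟨hvP, hDP⟩ := hP' p hp
  obtain ⟨eadd, emul, econst, ecm, ecomm⟩ := hE s w N M hA d hd
  have hmem : ∀ g, g ∈ OP p w ↔ g ∈ SP := fun g => by rw [← hSP]; rfl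
  have hpO : ∀ g ∈ OP p w, g ∈ OQ w := fun g hg => hSPO g ((hmem g).1 hg)
  have hp0 : (p : ℚ) ≠ 0 := by exact_mod_cast hp.prime.ne_zero
  have hDit : ∀ k : ℕ, ∀ g ∈ OP p w, D^[k] g ∈ OP p w := by
    intro k
    induction k with
    | zero => intro g hg; exact hg
    | succ k ih => intro g hg; rw [Function.iterate_succ_apply]; exact ih _ (hDP g hg)
  have hdelDit : ∀ k : ℕ, ∀ g : PS, del d (D^[k] g) = D^[k] (del d g) := by
    intro k
    induction k with
    | zero => intro g; rfl
    | succ k ih => intro g; rw [Function.iterate_succ_apply, Function.iterate_succ_apply, ih, ecomm]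
  have claim : ∀ m : ℕ, ∃ h ∈ OP p w, del d h = 0 ∧ D^[p * m] f = PowerSeries.C ((p : ℚ) ^ m) * h := by
    intro m
    induction m with
    | zero => exact ⟨f, hf, hf0, by simp⟩
    | succ m ih =>
      obtain ⟨h, hh, hh0, hhe⟩ := ih
      obtain ⟨-, h', hh', he⟩ := hP s w N M hA p hp d hd hdi hcd h hh
      rw [hh0, sub_zero] at he
      refine ⟨h', hh', ?_, ?_⟩
      · have h1 : PowerSeries.C (p : ℚ) * del d h' = 0 := by
          rw [← ecm (p : ℚ) h' (hpO h' hh'), ← he, hdelDit, hh0, Dit_zero]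
        rcases mul_eq_zero.1 h1 with h2 | h2
        · exfalso
          apply hp0
          have h3 := congrArg (PowerSeries.coeff 0) h2
          simpa using h3
        · exact h2
      · rw [Nat.mul_succ, Nat.add_comm, Function.iterate_add_apply, hhe, Dit_C_mul, he, ← mul_assoc, ← map_mul,
          pow_succ]
  intro k
  obtain ⟨h, hh, hh0, hhe⟩ := claim (k / p)
  refine ⟨ev (D^[k % p] h), hSPev _ ((hmem _).1 (hDit _ h hh)), ?_⟩
  rw [← ev_Dit]
  have hk : k = k % p + p * (k / p) := (Nat.mod_add_div k p).symm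
  conv_lhs => rw [hk]
  rw [Function.iterate_add_apply, hhe, Dit_C_mul]
  simp [ev]

end Run7.h255.AD
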